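import Pool.Agent.Helper8.EX.NK
import Pool.Agent.Helper50.EX.Stm
import Pool.Graph.R_seed8.Y824.G4.Mono

/-!
# Project EX, package LT: the invariants of `I` are regular
-/

set_option autoImplicit false
set_option linter.unusedSectionVars false

namespace Pool.Agent.Helper8.EX

open Polynomial Finset IsLocalRing Pool.Agent.Helper50.EX Pool.Agent.Y824.G4

section inj

variable {B : Type} [CommRing B] [IsDomain B]

/-- a polynomial with linear coefficient outside `Q` is injective on `Q` -/
lemma eval_inj (Q : Ideal B) [Q.IsPrime] (P : B[X]) (hP : P.coeff 1 ∉ Q) {a b : B} (ha : a ∈ Q)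
    (hb : b ∈ Q) (h : P.eval a = P.eval b) : a = b := by
  set F := P.divX.divX with hF
  have h1 : P = C (P.coeff 0) + C (P.coeff 1) * X + X * (X * F) := by
    have e1 := divX_mul_X_add P
    have e2 := divX_mul_X_add P.divX
    rw [coeff_divX, zero_add] at e2
    rw [hF]
    linear_combination -e1 - X * e2
  obtain ⟨e, he⟩ := sub_dvd_eval_sub a b (X * F)
  have h2 : (a - b) * (P.coeff 1 + (a * F.eval a + b * e)) = 0 := by
    have h3 : P.eval a - P.eval b = 0 := sub_eq_zero.2 h
    rw [h1] at h3
    simp only [eval_add, eval_mul, eval_C, eval_X] at h3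
    simp only [eval_mul, eval_X] at he
    linear_combination h3 - b * he
  rcases mul_eq_zero.1 h2 with h3 | h3
  · exact sub_eq_zero.1 h3
  · exfalso
    apply hP
    have h4 : P.coeff 1 = -(a * F.eval a + b * e) := by linear_combination h3
    rw [h4]
    exact Q.neg_mem (Q.add_mem (Q.mul_mem_right _ ha) (Q.mul_mem_right _ hb))

end inj

section main

variable {B : Type} [CommRing B] [IsDomain B] {G : Type} [Group G] [Finite G]
  (ρ : G →* (B ≃+* B)) (Q : Ideal B) [Q.IsPrime] (I : Subgroup G)

/-- the norm -/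
noncomputable def nm (s : B) : B :=
  letI := Fintype.ofFinite I
  ∏ h : I, ρ h s

lemma nm_inv (s : B) {g : G} (hg : g ∈ I) : ρ g (nm ρ I s) = nm ρ I s := by
  letI := Fintype.ofFinite I
  unfold nm
  rw [map_prod]
  refine Fintype.prod_equiv (Equiv.mulLeft (⟨g, hg⟩ : I)) _ _ fun h => ?_
  rw [← RingAut.mul_apply, ← map_mul]
  rfl

lemma nm_dvd (s : B) : ∃ s', nm ρ I s = s * s' := by
  letI := Fintype.ofFinite I
  have h1 : (fun h : I => ρ h s) 1 ∣ ∏ h : I, ρ h s :=
    Finset.dvd_prod_of_mem (fun h : I => ρ h s) (mem_univ 1)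
  have h2 : (fun h : I => ρ h s) 1 = s := by
    simp only [OneMemClass.coe_one, map_one, RingAut.one_apply]
  rw [h2] at h1
  exact h1

variable {ρ Q I} in
lemma mem_iff (hI : I ≤ inr ρ Q) {g : G} (hg : g ∈ I) (x : B) : ρ g x ∈ Q ↔ x ∈ Q := by
  have h0 : ρ g x - x ∈ Q := hI hg x
  constructor
  · intro h
    have h1 : x = ρ g x - (ρ g x - x) := by ring
    rw [h1]
    exact Q.sub_mem h h0
  · intro h
    have h1 : ρ g x = (ρ g x - x) + x := by ring
    rw [h1]
    exact Q.add_mem h0 h

variable {ρ Q I} in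
lemma nm_not_mem (hI : I ≤ inr ρ Q) {s : B} (hs : s ∉ Q) : nm ρ I s ∉ Q := by
  letI := Fintype.ofFinite I
  unfold nm
  exact Submonoid.prod_mem Q.primeCompl fun h _ => fun h1 => hs ((mem_iff hI h.2 s).1 h1)

/-- LT -/
theorem lt : S_LT := by
  intro B _ _ G _ _ ρ Q _ _ I hI hMon A _ j hj hfix q _ hq
  classical
  letI : Fintype I := Fintype.ofFinite I
  obtain ⟨x, b₀, s₀, P₀, hxQ, hxinj, hP₀, hs₀, hev₀, hall⟩ := hMon
  let L := Localization.AtPrime Q
  let al := algebraMap B L
  have hBinj : Function.Injective al :=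
    IsLocalization.injective _ Q.primeCompl_le_nonZeroDivisors
  have hLdom : IsDomain L :=
    IsLocalization.isDomain_localization Q.primeCompl_le_nonZeroDivisors
  have hunit : ∀ s : B, s ∉ Q → IsUnit (al s) := fun s hs =>
    IsLocalization.map_units L (⟨s, hs⟩ : Q.primeCompl)
  have hfrac : ∀ z : L, ∃ r s : B, s ∉ Q ∧ z * al s = al r := by
    intro z
    obtain ⟨r, s, rfl⟩ := IsLocalization.exists_mk'_eq Q.primeCompl z
    exact ⟨r, s, s.2, IsLocalization.mk'_spec _ _ _⟩
  -- the normalised element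
  obtain ⟨s₁, hs₁⟩ := nm_dvd ρ I s₀
  set b := nm ρ I s₀ * b₀ with hb
  set P := C s₁ * P₀ with hP
  have hs₁Q : s₁ ∉ Q := by
    intro h
    apply nm_not_mem hI hs₀
    rw [hs₁]
    exact Q.mul_mem_left _ h
  have hev : ∀ g ∈ I, P.eval (x g) = ρ g b := by
    intro g hg
    rw [hP, hb, eval_mul, eval_C, hev₀ g hg, map_mul, nm_inv ρ I s₀ hg, hs₁]
    ring
  have hP1 : P.coeff 1 ∉ Q := by
    rw [hP, coeff_C_mul]
    intro h
    rcases ‹Q.IsPrime›.mem_or_mem h with h | h
    · exact hs₁Q h
    · exact hP₀ h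
  have hbinj : ∀ g ∈ I, ∀ h ∈ I, ρ g b = ρ h b → g = h := by
    intro g hg h hh he
    rw [← hev g hg, ← hev h hh] at he
    exact hxinj g hg h hh (eval_inj Q P hP1 (hxQ g hg) (hxQ h hh) he)
  -- the automorphisms of the local ring
  have hcomap : ∀ g : I, Q = Q.comap ((ρ g : B ≃+* B) : B →+* B) := by
    intro g
    ext z
    rw [Ideal.mem_comap]
    exact (mem_iff hI g.2 z).symm
  let τ : I → (L →+* L) := fun g => Localization.localRingHom Q Q ((ρ g : B ≃+* B) : B →+* B) (hcomap g)
  have hτal : ∀ (g : I) (z : B), τ g (al z) = al (ρ g z) := fun g z =>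
    Localization.localRingHom_to_map Q Q ((ρ g : B ≃+* B) : B →+* B) (hcomap g) z
  have hinv : ∀ z : L, (∀ g : I, τ g z = z) → ∃ a, Localization.localRingHom q Q j hq a = z := by
    intro z hz
    obtain ⟨r, s, hs, h⟩ := hfrac z
    obtain ⟨s', hs'⟩ := nm_dvd ρ I s
    have hnQ := nm_not_mem hI hs
    have h1 : z * al (nm ρ I s) = al (s' * r) := by
      rw [hs', map_mul, map_mul]
      linear_combination al s' * h
    have h2 : ∀ g ∈ I, ρ g (s' * r) = s' * r := by
      intro g hg
      have h3 := congrArg (τ ⟨g, hg⟩) h1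
      rw [map_mul (τ _), hz, hτal, hτal] at h3
      change z * al (ρ g (nm ρ I s)) = al (ρ g (s' * r)) at h3
      rw [nm_inv ρ I s hg, h1] at h3
      exact (hBinj h3).symm
    obtain ⟨a, ha⟩ := (hfix _).1 h2
    obtain ⟨n, hn'⟩ := (hfix (nm ρ I s)).1 fun g hg => nm_inv ρ I s hg
    have hnq : n ∉ q := by
      rw [hq, Ideal.mem_comap, hn']
      exact hnQ
    refine ⟨IsLocalization.mk' _ a (⟨n, hnq⟩ : q.primeCompl), ?_⟩
    rw [Localization.localRingHom_mk']
    rw [IsLocalization.mk'_eq_iff_eq_mul]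
    change al (j a) = z * al (j n)
    rw [ha, hn', h1]
  -- the polynomial of the nodes
  set J : L[X] := ∏ g : I, (X - C (al (x g))) with hJ
  have hJm : J.Monic := monic_prod_of_monic _ _ fun g _ => monic_X_sub_C _
  have hJ0 : ∀ g : I, J.eval (al (x g)) = 0 := by
    intro g
    rw [hJ, eval_prod]
    exact Finset.prod_eq_zero (mem_univ g) (by rw [eval_sub, eval_X, eval_C, sub_self])
  have hJq : ∀ n, (J - X ^ (Fintype.card I)).coeff n ∈ maximalIdeal L := by
    intro n
    have h1 : (J - X ^ (Fintype.card I)).map (IsLocalRing.residue L) = 0 := by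
      rw [Polynomial.map_sub, Polynomial.map_pow, Polynomial.map_X, hJ, Polynomial.map_prod]
      have h2 : ∀ g : I, (X - C (al (x g))).map (IsLocalRing.residue L) = X := by
        intro g
        rw [Polynomial.map_sub, Polynomial.map_X, Polynomial.map_C]
        have h3 : IsLocalRing.residue L (al (x g)) = 0 := by
          rw [IsLocalRing.residue_eq_zero_iff]
          exact (IsLocalization.AtPrime.to_map_mem_maximal_iff L Q _).2 (hxQ g g.2)
        rw [h3, C_0, sub_zero]
      rw [Finset.prod_congr rfl fun g _ => h2 g, prod_const, card_univ, sub_self]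
    have h2 := congrArg (fun F => F.coeff n) h1
    simp only [coeff_map, coeff_zero] at h2
    exact (IsLocalRing.residue_eq_zero_iff _).1 h2
  set F : L[X] := P.map al with hF
  have hF1 : IsUnit (F.coeff 1) := by
    rw [hF, coeff_map]
    exact hunit _ hP1
  have hFev : ∀ g : I, F.eval (al (x g)) = al (ρ g b) := by
    intro g
    rw [hF, eval_map, eval₂_hom, hev g g.2]
  -- interpolation
  have hint : ∀ c : B, ∃ s : B, s ∉ Q ∧ (∀ g ∈ I, ρ g s = s) ∧ ∃ a : Fin (Fintype.card I) → L,
      ∀ g : I, al (ρ g (s * c)) = ∑ i, a i * al (ρ g b) ^ (i : ℕ) := by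
    intro c
    obtain ⟨s, hs, R, hR⟩ := hall c
    obtain ⟨s', hs'⟩ := nm_dvd ρ I s
    refine ⟨nm ρ I s, nm_not_mem hI hs, fun g hg => nm_inv ρ I s hg, ?_⟩
    obtain ⟨a, K, hK⟩ := powers_span J F (Fintype.card I) hJm hJq hF1 ((C s' * R).map al)
    refine ⟨a, fun g => ?_⟩
    have h1 := congrArg (fun H => H.eval (al (x g))) hK
    simp only [eval_sub, eval_mul, hJ0, zero_mul, eval_finsetSum, eval_C, eval_pow, hFev] at h1
    rw [eval_map, eval₂_hom, eval_mul, eval_C, hR g g.2] at h1
    rw [map_mul (ρ g), nm_inv ρ I s g.2, hs', ← sub_eq_zero, ← h1]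
    congr 2
    ring
  -- the coefficients are invariant
  have hcoef : ∀ (c : B) (a : Fin (Fintype.card I) → L),
      (∀ g : I, al (ρ g c) = ∑ i, a i * al (ρ g b) ^ (i : ℕ)) → ∀ i, ∀ h : I, τ h (a i) = a i := by
    intro c a ha i h
    set D : L[X] := ∑ i, C (τ h (a i) - a i) * X ^ (i : ℕ) with hD
    have hDr : ∀ g : I, D.eval (al (ρ g b)) = 0 := by
      intro g
      have h1 := congrArg (τ h) (ha (h⁻¹ * g))
      rw [map_sum] at h1
      simp only [map_mul, map_pow, hτal] at h1
      have h2 : ∀ z : B, ρ h (ρ ((h⁻¹ * g : I) : G) z) = ρ g z := by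
        intro z
        rw [← RingAut.mul_apply, ← map_mul]
        congr 2
        simp
      have h3 := ha g
      have h1' : al (ρ g c) = ∑ i, τ h (a i) * al (ρ g b) ^ (i : ℕ) := by
        rw [← h2 c, ← h2 b]
        simpa using h1
      rw [hD, eval_finsetSum]
      simp only [eval_mul, eval_C, eval_pow, eval_X, sub_mul]
      rw [sum_sub_distrib, ← h1', ← h3, sub_self]
    have hD0 : D = 0 := by
      by_contra hne
      have h1 : D.natDegree < Fintype.card I := by
        rw [hD]
        refine lt_of_le_of_lt (natDegree_sum_le_of_forall_le (n := Fintype.card I - 1) _ _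
          fun i _ => ?_) ?_
        · refine (natDegree_C_mul_X_pow_le _ _).trans ?_
          have := i.2
          omega
        · have : 0 < Fintype.card I := Fintype.card_pos
          omega
      have h2 : Fintype.card I ≤ D.natDegree := by
        have h3 : (univ.image fun g : I => al (ρ g b)).card = Fintype.card I := by
          rw [card_image_of_injective, card_univ]
          intro g g' hgg
          exact Subtype.ext (hbinj g g.2 g' g'.2 (hBinj hgg))
        rw [← h3]
        refine (card_le_card (t := D.roots.toFinset) ?_).trans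
          ((Multiset.toFinset_card_le _).trans (card_roots' D))
        intro z hz
        obtain ⟨g, _, rfl⟩ := mem_image.1 hz
        rw [Multiset.mem_toFinset, mem_roots hne]
        exact hDr g
      omega
    have h1 := congrArg (fun H => H.coeff (i : ℕ)) hD0
    simp only [hD, finsetSum_coeff, coeff_C_mul, coeff_X_pow, coeff_zero] at h1
    rw [Finset.sum_eq_single i] at h1
    · rw [if_pos rfl, mul_one] at h1
      exact sub_eq_zero.1 h1
    · intro i' _ hne
      rw [if_neg, mul_zero]
      intro he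
      exact hne (Fin.ext he.symm)
    · intro h
      exact absurd (mem_univ i) h
  -- generation
  have hgenB : ∀ c : B, ∃ s : B, s ∉ Q ∧ (∀ g ∈ I, ρ g s = s) ∧
      ∃ g : (Localization.AtPrime q)[X],
        al (s * c) = eval₂ (Localization.localRingHom q Q j hq) (al b) g := by
    intro c
    obtain ⟨s, hs, hsi, a, ha⟩ := hint c
    refine ⟨s, hs, hsi, ?_⟩
    have h1 := hcoef (s * c) a ha
    choose a' ha' using fun i => hinv (a i) (h1 i)
    refine ⟨∑ i, C (a' i) * X ^ (i : ℕ), ?_⟩
    have h2 := ha 1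
    simp only [OneMemClass.coe_one, map_one, RingAut.one_apply] at h2
    rw [eval₂_finsetSum, h2]
    refine sum_congr rfl fun i _ => ?_
    rw [eval₂_mul, eval₂_C, eval₂_X_pow, ha']
  have hsurj1 : ∀ z : L, ∃ g : (Localization.AtPrime q)[X],
      z = eval₂ (Localization.localRingHom q Q j hq) (al b) g := by
    intro z
    obtain ⟨r, s, hs, h⟩ := hfrac z
    obtain ⟨s', hs'⟩ := nm_dvd ρ I s
    obtain ⟨t, ht, hti, g, hg⟩ := hgenB (s' * r)
    -- the denominator
    have hden : t * nm ρ I s ∉ Q := fun hmem => by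
      rcases ‹Q.IsPrime›.mem_or_mem hmem with h1 | h1
      · exact ht h1
      · exact nm_not_mem hI hs h1
    have hdi : ∀ g ∈ I, ρ g (t * nm ρ I s) = t * nm ρ I s := fun g hg => by
      rw [map_mul, hti g hg, nm_inv ρ I s hg]
    obtain ⟨n, hn⟩ := (hfix _).1 hdi
    have hnq : n ∉ q := by
      rw [hq, Ideal.mem_comap, hn]
      exact hden
    obtain ⟨v, hv⟩ := (IsLocalization.map_units (Localization.AtPrime q)
      (⟨n, hnq⟩ : q.primeCompl)).exists_left_inv
    refine ⟨C v * g, ?_⟩
    rw [eval₂_mul, eval₂_C, ← hg]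
    have h1 : z * al (t * nm ρ I s) = al (t * (s' * r)) := by
      rw [hs', map_mul, map_mul, map_mul, map_mul]
      linear_combination al t * al s' * h
    have h2 : Localization.localRingHom q Q j hq v * al (t * nm ρ I s) = 1 := by
      rw [← hn, ← Localization.localRingHom_to_map q Q j hq n, ← map_mul, hv, map_one]
    rw [← h1]
    linear_combination (-z) * h2
  -- the minimal polynomial
  set PB : B[X] := ∏ g : I, (X - C (ρ g b)) with hPB
  have hPBm : PB.Monic := monic_prod_of_monic _ _ fun g _ => monic_X_sub_C _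
  have hPBi : ∀ h : I, PB.map ((ρ h : B ≃+* B) : B →+* B) = PB := by
    intro h
    rw [hPB, Polynomial.map_prod]
    refine Fintype.prod_equiv (Equiv.mulLeft h) _ _ fun g => ?_
    rw [Polynomial.map_sub, Polynomial.map_X, Polynomial.map_C]
    congr 2
    change ρ h (ρ g b) = ρ ((h * g : I) : G) b
    rw [← RingAut.mul_apply, ← map_mul]
    rfl
  obtain ⟨PA, hPA⟩ : ∃ PA : A[X], PA.map j = PB := by
    rw [← Polynomial.mem_lifts, lifts_iff_coeff_lifts]
    intro n
    have h1 : ∀ h ∈ I, ρ h (PB.coeff n) = PB.coeff n := by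
      intro h hh
      have h2 := congrArg (fun H => H.coeff n) (hPBi ⟨h, hh⟩)
      simp only [coeff_map] at h2
      exact h2
    obtain ⟨a, ha⟩ := (hfix _).1 h1
    exact ⟨a, ha⟩
  have hPm : PA.Monic := by
    apply monic_of_injective hj
    rw [hPA]
    exact hPBm
  have hPA0 : eval₂ j b PA = 0 := by
    rw [← eval_map, hPA, hPB, eval_prod]
    refine Finset.prod_eq_zero (mem_univ 1) ?_
    simp
  have hker : ∀ g0 : A[X], eval₂ j b g0 = 0 → PA ∣ g0 := by
    intro g0 h1
    rw [← map_dvd_map j hj hPm, hPA]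
    rcases eq_or_ne (g0.map j) 0 with h0 | h0
    · rw [h0]
      exact dvd_zero _
    have h2 : ∀ g : I, (g0.map j).eval (ρ g b) = 0 := by
      intro g
      have h3 : (g0.map j).map ((ρ g : B ≃+* B) : B →+* B) = g0.map j := by
        ext n
        rw [coeff_map, coeff_map]
        exact (hfix _).2 ⟨_, rfl⟩ g g.2
      rw [← h3, eval_map]
      change eval₂ ((ρ g : B ≃+* B) : B →+* B) (((ρ g : B ≃+* B) : B →+* B) b) (g0.map j) = 0
      rw [eval₂_hom, eval_map, h1, map_zero]
    have h3 : PB = ((univ.image fun g : I => ρ g b).val.map fun z => X - C z).prod := by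
      rw [hPB]
      change _ = ∏ z ∈ univ.image (fun g : I => ρ g b), (X - C z)
      rw [prod_image]
      intro g _ g' _ hgg
      exact Subtype.ext (hbinj g g.2 g' g'.2 hgg)
    rw [h3, Multiset.prod_X_sub_C_dvd_iff_le_roots h0, Multiset.le_iff_subset (Finset.nodup _)]
    intro z hz
    rw [Finset.mem_val] at hz
    obtain ⟨g, _, rfl⟩ := mem_image.1 hz
    rw [mem_roots h0]
    exact h2 g
  have hdeg : 0 < (PA.map (algebraMap A (Localization.AtPrime q))).natDegree := by
    have h1 : PA.natDegree = Fintype.card I := by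
      have h2 : (PA.map j).natDegree = PA.natDegree := hPm.natDegree_map j
      rw [← h2, hPA, hPB, natDegree_prod_of_monic _ _ (fun g _ => monic_X_sub_C _)]
      simp
    rw [hPm.natDegree_map, h1]
    exact Fintype.card_pos
  have hno : IsNoetherianRing (Localization.AtPrime q) := by
    refine noeth (Localization.localRingHom q Q j hq) (al b)
      (PA.map (algebraMap A (Localization.AtPrime q))) (hPm.map _) hdeg ?_ ?_ hsurj1
    · rw [map_eval, hPA0, map_zero]
    · exact ker_dvd j q Q hq b PA hBinj hker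
  refine mono_reg j q Q hq b PA hBinj hPm hPA0 hker ?_
  intro c
  obtain ⟨g, hg⟩ := hsurj1 c
  refine ⟨g, 1, ?_, ?_⟩
  · rw [eval₂_one]
    exact isUnit_one
  · rw [eval₂_one, mul_one]
    exact hg

end main

end Pool.Agent.Helper8.EX
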