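import Mathlib.RingTheory.AdjoinRoot
import Mathlib.RingTheory.Nakayama
import Mathlib.RingTheory.LocalRing.ResidueField.Basic
import Mathlib.RingTheory.LocalRing.MaximalIdeal.Basic
import Mathlib.Algebra.Polynomial.Roots

/-!
# LT: the powers of a polynomial with invertible linear coefficient modulo a polynomial which is
congruent to a power of the variable
-/

set_option autoImplicit false
set_option linter.unusedSectionVars false

namespace Pool.Agent.Helper8.EX

open Polynomial Finset IsLocalRing

section nak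

variable {L : Type} [CommRing L] [IsLocalRing L]

lemma mk_mem_smul (J H : L[X]) (hH : ∀ n, H.coeff n ∈ maximalIdeal L) :
    AdjoinRoot.mk J H ∈ (maximalIdeal L) • (⊤ : Submodule L (AdjoinRoot J)) := by
  rw [H.as_sum_range_C_mul_X_pow, map_sum]
  refine Submodule.sum_mem _ fun n _ => ?_
  have h1 : AdjoinRoot.mk J (C (H.coeff n) * X ^ n) =
      (H.coeff n) • AdjoinRoot.mk J (X ^ n) := by
    rw [← smul_eq_C_mul, AdjoinRoot.smul_mk]
  rw [h1]
  exact Submodule.smul_mem_smul (hH n) trivial

/-- the span of the powers -/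
noncomputable def Np (J F : L[X]) (q : ℕ) : Submodule L (AdjoinRoot J) :=
  Submodule.span L (Set.range fun j : Fin q => AdjoinRoot.mk J (F ^ (j : ℕ)))

lemma pow_mem (J F : L[X]) (q : ℕ) (b : L) (i : ℕ) (hi : i < q) :
    AdjoinRoot.mk J ((F - C b) ^ i) ∈ Np J F q := by
  rw [sub_eq_add_neg, ← C_neg, add_pow, map_sum]
  refine Submodule.sum_mem _ fun m hm => ?_
  have hm' : m < q := by
    have := mem_range.1 hm
    omega
  have h1 : F ^ m * (C (-b)) ^ (i - m) * ((i.choose m : ℕ) : L[X]) =
      C ((-b) ^ (i - m) * ((i.choose m : ℕ) : L)) * F ^ m := by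
    rw [C_mul, C_pow, C_eq_natCast]
    ring
  rw [h1, ← smul_eq_C_mul, ← AdjoinRoot.smul_mk]
  exact Submodule.smul_mem _ _ (Submodule.subset_span ⟨⟨m, hm'⟩, rfl⟩)

/-- **The key lemma.** -/
theorem powers_span (J F : L[X]) (q : ℕ) (hJ : J.Monic)
    (hJq : ∀ n, (J - X ^ q).coeff n ∈ maximalIdeal L) (hF : IsUnit (F.coeff 1)) (R : L[X]) :
    ∃ a : Fin q → L, J ∣ R - ∑ j, C (a j) * F ^ (j : ℕ) := by
  have key : ∀ k i : ℕ, i + k = q → ∀ R : L[X],
      AdjoinRoot.mk J (X ^ i * R) ∈ Np J F q ⊔ (maximalIdeal L) • ⊤ := by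
    intro k
    induction k with
    | zero =>
      intro i hi R
      have hi' : i = q := by omega
      subst hi'
      have h1 : (X : L[X]) ^ i * R = J * R - (J - X ^ i) * R := by ring
      rw [h1, map_sub, map_mul, AdjoinRoot.mk_self, zero_mul, zero_sub]
      refine Submodule.neg_mem _ (Submodule.mem_sup_right (mk_mem_smul J _ ?_))
      intro n
      rw [coeff_mul]
      exact Ideal.sum_mem _ fun x _ => Ideal.mul_mem_right _ _ (hJq _)
    | succ k ih =>
      intro i hi R
      have ih' := ih (i + 1) (by omega)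
      -- the power of the variable
      have h0 : AdjoinRoot.mk J (X ^ i) ∈ Np J F q ⊔ (maximalIdeal L) • ⊤ := by
        set U := F.divX with hU
        have hU0 : F - C (F.coeff 0) = X * U := by
          have := divX_mul_X_add F
          rw [hU]
          linear_combination -this
        have hUc : (U ^ i).coeff 0 = (F.coeff 1) ^ i := by
          rw [coeff_zero_eq_eval_zero, eval_pow, ← coeff_zero_eq_eval_zero, hU, coeff_divX]
        have h2 : (F - C (F.coeff 0)) ^ i =
            C ((F.coeff 1) ^ i) * X ^ i + X ^ (i + 1) * (U ^ i).divX := by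
          rw [hU0, mul_pow]
          have := divX_mul_X_add (U ^ i)
          rw [hUc] at this
          linear_combination -(X ^ i : L[X]) * this
        have h3 := pow_mem J F q (F.coeff 0) i (by omega)
        have h4 : (F.coeff 1) ^ i • AdjoinRoot.mk J (X ^ i) ∈
            Np J F q ⊔ (maximalIdeal L) • ⊤ := by
          have h5 : (F.coeff 1) ^ i • AdjoinRoot.mk J (X ^ i) =
              AdjoinRoot.mk J ((F - C (F.coeff 0)) ^ i) -
                AdjoinRoot.mk J (X ^ (i + 1) * (U ^ i).divX) := by
            rw [h2, map_add, ← smul_eq_C_mul, ← AdjoinRoot.smul_mk]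
            abel
          rw [h5]
          exact Submodule.sub_mem _ (Submodule.mem_sup_left h3) (ih' _)
        obtain ⟨u, hu⟩ := hF.pow i
        have h6 : AdjoinRoot.mk J (X ^ i) = (↑u⁻¹ : L) • ((F.coeff 1) ^ i • AdjoinRoot.mk J (X ^ i)) := by
          rw [smul_smul, ← hu, Units.inv_mul, one_smul]
        rw [h6]
        exact Submodule.smul_mem _ _ h4
      have h1 : X ^ i * R = C (R.coeff 0) * X ^ i + X ^ (i + 1) * R.divX := by
        have := divX_mul_X_add R
        linear_combination -(X ^ i : L[X]) * this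
      rw [h1, map_add, ← smul_eq_C_mul, ← AdjoinRoot.smul_mk]
      exact Submodule.add_mem _ (Submodule.smul_mem _ _ h0) (ih' _)
  have hfin : Module.Finite L (AdjoinRoot J) := hJ.finite_adjoinRoot
  have htop : (⊤ : Submodule L (AdjoinRoot J)) ≤ Np J F q := by
    refine Submodule.le_of_le_smul_of_le_jacobson_bot Module.Finite.fg_top
      (maximalIdeal_le_jacobson ⊥) ?_
    intro z _
    obtain ⟨R, rfl⟩ := AdjoinRoot.mk_surjective z
    have := key q 0 (by omega) R
    rwa [pow_zero, one_mul] at this
  have hR : AdjoinRoot.mk J R ∈ Np J F q := htop trivial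
  obtain ⟨a, ha⟩ := (Submodule.mem_span_range_iff_exists_fun L).1 hR
  refine ⟨a, ?_⟩
  rw [← AdjoinRoot.mk_eq_mk, map_sum, ← ha]
  refine sum_congr rfl fun j _ => ?_
  rw [← smul_eq_C_mul, ← AdjoinRoot.smul_mk]

end nak

end Pool.Agent.Helper8.EX
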